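import Pool.Agent.Helper37.SN.Stmts

set_option autoImplicit false

namespace Pool.Agent.Helper37.SN

open MeasureTheory Finset
open scoped ENNReal Classical

theorem h90_mem_NN {m : ℕ} (a b : Fin m → ℤ) (ρ s : ℤ) (z : Fin m) :
    z ∈ NN a b ρ s ↔ a z + ρ ≤ s ∧ s ≤ b z - ρ := by
  unfold NN
  rw [Finset.mem_filter]
  exact ⟨fun h => h.2, fun h => ⟨Finset.mem_univ _, h⟩⟩

/-- long intervals contain many light points -/
theorem h90_det_long {n B ρ κ W u Λ m : ℕ} {a b : Fin m → ℤ} {s₀ s : ℤ} (hρ : 1 ≤ ρ)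
    (hΛ : 2 * u + 2 ≤ Λ) (h0 : s₀ ∈ LL a b n B) (hE : s₀ ∉ Edg a b n B ρ κ W)
    (hs : s ∈ LL a b n B) (hM : s ∉ Med a b n B ρ Λ) (hL : s ∉ Lon (LL a b n B) κ u)
    (z : Fin m) (hz : z ∈ NN a b ((ρ : ℤ) - 1) s) :
    (W : ℤ) + 1 < |s₀ - (a z + ((ρ : ℤ) - 1))| ∧ (W : ℤ) + 1 < |s₀ - (b z - ((ρ : ℤ) - 1))| := by
  rw [h90_mem_NN] at hz
  have hz0 : z ∈ NN a b 0 s := by
    rw [h90_mem_NN]
    omega
  have hlen : (Λ : ℤ) ≤ b z - a z := by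
    by_contra hc
    apply hM
    unfold Med
    rw [Finset.mem_filter]
    exact ⟨hs, z, hz0, by omega, by omega⟩
  have hL2 : κ ≤ ((LL a b n B).filter (fun t : ℤ => s ≤ t ∧ t ≤ s + (u : ℤ))).card ∧
      κ ≤ ((LL a b n B).filter (fun t : ℤ => s - (u : ℤ) ≤ t ∧ t ≤ s)).card := by
    by_contra hc
    apply hL
    unfold Lon
    rw [Finset.mem_filter]
    refine ⟨hs, ?_⟩
    by_contra hc2
    apply hc
    push Not at hc2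
    exact hc2
  have hcard : κ ≤ ((LL a b n B).filter (fun t => a z ≤ t ∧ t ≤ b z)).card := by
    by_cases hc : s + (u : ℤ) ≤ b z
    · refine hL2.1.trans (Finset.card_le_card ?_)
      intro t ht
      rw [Finset.mem_filter] at ht ⊢
      refine ⟨ht.1, ?_, ?_⟩
      · omega
      · omega
    · refine hL2.2.trans (Finset.card_le_card ?_)
      intro t ht
      rw [Finset.mem_filter] at ht ⊢
      refine ⟨ht.1, ?_, ?_⟩
      · omega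
      · omega
  have hI : s₀ ∈ Finset.Icc (0 : ℤ) n := by
    unfold LL at h0
    exact (Finset.mem_filter.1 h0).1
  by_contra hc
  apply hE
  unfold Edg
  rw [Finset.mem_filter]
  refine ⟨hI, z, hcard, ?_⟩
  by_contra hc2
  push Not at hc2
  exact hc hc2

theorem h90_det_eq {n B ρ κ W u Λ m : ℕ} {a b : Fin m → ℤ} {s₀ s : ℤ} (hρ : 1 ≤ ρ)
    (hΛ : 2 * u + 2 ≤ Λ) (h0 : s₀ ∈ LL a b n B) (hM0 : s₀ ∉ Med a b n B ρ Λ)
    (hL0 : s₀ ∉ Lon (LL a b n B) κ u) (hE : s₀ ∉ Edg a b n B ρ κ W)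
    (hs : s ∈ LL a b n B) (hM : s ∉ Med a b n B ρ Λ) (hL : s ∉ Lon (LL a b n B) κ u)
    (h1 : s₀ - W ≤ s) (h2 : s ≤ s₀ + W) :
    NN a b ((ρ : ℤ) - 1) s = NN a b ρ s₀ ∧ NN a b ρ s = NN a b ρ s₀ := by
  have key1 : ∀ z, z ∈ NN a b ((ρ : ℤ) - 1) s → z ∈ NN a b ρ s₀ := by
    intro z hz
    obtain ⟨e1, e2⟩ := h90_det_long hρ hΛ h0 hE hs hM hL z hz
    rw [h90_mem_NN] at hz ⊢
    rw [lt_abs] at e1 e2
    omega
  have key2 : ∀ z, z ∈ NN a b ρ s₀ → z ∈ NN a b ρ s := by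
    intro z hz
    have hz' : z ∈ NN a b ((ρ : ℤ) - 1) s₀ := by
      rw [h90_mem_NN] at hz ⊢
      omega
    obtain ⟨e1, e2⟩ := h90_det_long hρ hΛ h0 hE h0 hM0 hL0 z hz'
    rw [h90_mem_NN] at hz ⊢
    rw [lt_abs] at e1 e2
    omega
  have key3 : ∀ z, z ∈ NN a b ρ s → z ∈ NN a b ((ρ : ℤ) - 1) s := by
    intro z hz
    rw [h90_mem_NN] at hz ⊢
    omega
  refine ⟨?_, ?_⟩
  · ext z
    exact ⟨key1 z, fun h => key3 z (key2 z h)⟩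
  · ext z
    exact ⟨fun h => key1 z (key3 z h), key2 z⟩

theorem st_DET : ST_DET := by
  intro n B j w ρ κ W u Λ m a b s₀ hρ hΛ h0 hM0 hL0 hE hR hLf
  set GR := (LL a b n B).filter (fun s => s₀ + j ≤ s ∧ s ≤ s₀ + W ∧ s ∉ Med a b n B ρ Λ ∧
    s ∉ Lon (LL a b n B) κ u) with hGR
  set GT := (LL a b n B).filter (fun s => s₀ - W ≤ s ∧ s ≤ s₀ - j ∧ s ∉ Med a b n B ρ Λ ∧
    s ∉ Lon (LL a b n B) κ u) with hGT
  have hb : ∀ s ∈ LL a b n B, 0 ≤ s ∧ s ≤ n := by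
    intro s hs
    unfold LL at hs
    exact Finset.mem_Icc.1 (Finset.mem_filter.1 hs).1
  have mR : ∀ s ∈ GR, s ∈ LL a b n B ∧ s₀ + j ≤ s ∧ s ≤ s₀ + W ∧ s ∉ Med a b n B ρ Λ ∧
      s ∉ Lon (LL a b n B) κ u := fun s hs => Finset.mem_filter.1 hs
  have mL : ∀ s ∈ GT, s ∈ LL a b n B ∧ s₀ - W ≤ s ∧ s ≤ s₀ - j ∧ s ∉ Med a b n B ρ Λ ∧
      s ∉ Lon (LL a b n B) κ u := fun s hs => Finset.mem_filter.1 hs
  obtain ⟨sp, hsp⟩ := Finset.card_pos.1 (lt_of_lt_of_le (Nat.succ_pos w) hR)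
  obtain ⟨sm, hsm⟩ := Finset.card_pos.1 (lt_of_lt_of_le (Nat.succ_pos w) hLf)
  have eR : ∀ s ∈ GR, NN a b ((ρ : ℤ) - 1) s = NN a b ρ s₀ ∧ NN a b ρ s = NN a b ρ s₀ := by
    intro s hs
    obtain ⟨q1, q2, q3, q4, q5⟩ := mR s hs
    exact h90_det_eq hρ hΛ h0 hM0 hL0 hE q1 q4 q5 (by omega) (by omega)
  have eL : ∀ s ∈ GT, NN a b ((ρ : ℤ) - 1) s = NN a b ρ s₀ ∧ NN a b ρ s = NN a b ρ s₀ := by
    intro s hs
    obtain ⟨q1, q2, q3, q4, q5⟩ := mL s hs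
    exact h90_det_eq hρ hΛ h0 hM0 hL0 hE q1 q4 q5 (by omega) (by omega)
  have e0 : NN a b ((ρ : ℤ) - 1) s₀ = NN a b ρ s₀ ∧ NN a b ρ s₀ = NN a b ρ s₀ :=
    h90_det_eq hρ hΛ h0 hM0 hL0 hE h0 hM0 hL0 (by omega) (by omega)
  refine ⟨GR, sp, sm, by omega, fun s hs => hb s (mR s hs).1, (mR sp hsp).2.1,
    (hb sp (mR sp hsp).1).2, (hb sm (mL sm hsm).1).1, (mL sm hsm).2.2.1, ?_⟩
  intro s hs
  rw [Finset.mem_insert, Finset.mem_insert, Finset.mem_insert] at hs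
  rcases hs with h | h | h | h
  · rw [h]
    exact e0
  · rw [h]
    exact eR sp hsp
  · rw [h]
    exact eL sm hsm
  · exact eR s h

end Pool.Agent.Helper37.SN
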