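import Pool.Agent.Helper37.SN.Stmts

set_option autoImplicit false

namespace Pool.Agent.Helper37.SN

open MeasureTheory Finset
open scoped ENNReal Classical

/-- counting: removing two sets with few elements close to `s` -/
theorem h90_one_count {A M N F : Finset ℤ} {s : ℤ} {W T w : ℕ} (hT : w + 1 ≤ T)
    (hF : ∀ x ∈ F, |x - s| ≤ W) (hFA : 3 * T ≤ F.card)
    (hM : (M.filter (fun x => |x - s| ≤ W)).card < T)
    (hN : (N.filter (fun x => |x - s| ≤ W)).card < T)
    (hA : ∀ x ∈ F, x ∉ M → x ∉ N → x ∈ A) : w + 1 ≤ A.card := by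
  have h1 : F ⊆ A ∪ (M.filter (fun x => |x - s| ≤ W) ∪ N.filter (fun x => |x - s| ≤ W)) := by
    intro x hx
    rw [Finset.mem_union, Finset.mem_union, Finset.mem_filter, Finset.mem_filter]
    by_cases h1 : x ∈ M
    · exact Or.inr (Or.inl ⟨h1, hF x hx⟩)
    · by_cases h2 : x ∈ N
      · exact Or.inr (Or.inr ⟨h2, hF x hx⟩)
      · exact Or.inl (hA x hx h1 h2)
  have h2 := (Finset.card_le_card h1).trans (Finset.card_union_le _ _)
  have h3 := Finset.card_union_le (M.filter (fun x => |x - s| ≤ W))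
    (N.filter (fun x => |x - s| ≤ W))
  omega

theorem h90_one_c (ε c : ℝ) (hε : 0 < ε) : 5 * ε / 8 * (c * (8 / (5 * ε))) = c := by
  field_simp

theorem h90_one_a (ε x k : ℝ) (hε : 0 < ε) : ε / 8 * (x * k * (8 / ε)) = x * k := by
  field_simp

theorem h90_one_b (t n l : ℝ) (ht : 0 < t) (hl : 0 < l) :
    8 * t * ((n + 1) / (l * t)) = 8 / l * (n + 1) := by
  field_simp

theorem h90_one_d (ε : ℝ) (hε : 0 < ε) : ε / 8 * (64 / ε) = 8 := by
  field_simp
  norm_num

theorem st_ONE (MLT : ST_MLT) (LON : ST_LON) (SPA : ST_SPA) (EDG : ST_EDG) (DET : ST_DET) :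
    ST_ONE := by
  intro ε hε
  obtain ⟨L0, hL0⟩ := exists_nat_ge (64 / ε)
  set L : ℕ := L0 + 1 with hLdef
  have hL : 64 / ε ≤ (L : ℝ) := by
    rw [hLdef]
    push_cast
    linarith
  have hL1 : 1 ≤ L := by omega
  refine ⟨2 * (L : ℝ) + 3, by positivity, ?_⟩
  intro B j w ρ hρ
  set T : ℕ := w + 1 + j with hTdef
  set W : ℕ := L * T with hWdef
  have hT1 : 1 ≤ T := by omega
  have hW1 : 1 ≤ W := Nat.mul_pos (by omega) (by omega)
  obtain ⟨κ0, hκ0⟩ := exists_nat_ge (2 * (2 * (W : ℝ) + 3) * B * (8 / ε))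
  set κ : ℕ := κ0 + 1 with hκdef
  have hκ : 2 * (2 * (W : ℝ) + 3) * B * (8 / ε) ≤ (κ : ℝ) := by
    rw [hκdef]
    push_cast
    linarith
  have hκ1 : (1 : ℝ) ≤ κ := by
    rw [hκdef]
    push_cast
    linarith [(Nat.cast_nonneg κ0 : (0 : ℝ) ≤ κ0)]
  obtain ⟨u0, hu0⟩ := exists_nat_ge ((2 * (L : ℝ) + 3) * (2 * κ) * (8 / ε))
  set u : ℕ := u0 + 1 with hudef
  have hu : (2 * (L : ℝ) + 3) * (2 * κ) * (8 / ε) ≤ (u : ℝ) := by
    rw [hudef]
    push_cast
    linarith
  have hu1 : 1 ≤ u := by omega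
  set Cc : ℝ := (2 * (L : ℝ) + 2) * (2 * κ) + 8 * T with hCc
  obtain ⟨n₀, hn₀⟩ := exists_nat_ge (Cc * (8 / (5 * ε)))
  refine ⟨2 * u + 2, n₀, ?_⟩
  intro n hn m a b
  set A := LL a b n B with hA
  set Me := Med a b n B ρ (2 * u + 2) with hMe
  set Lo := Lon A κ u with hLo
  set Ed := Edg a b n B ρ κ W with hEd
  have hAb : ∀ s ∈ A, 0 ≤ s ∧ s ≤ n := by
    intro s hs
    rw [hA] at hs
    unfold LL at hs
    exact Finset.mem_Icc.1 (Finset.mem_filter.1 hs).1
  set S := A.filter (fun s : ℤ => (A.filter (fun x : ℤ => s + (j : ℤ) ≤ x ∧ x ≤ s + (W : ℤ))).card < 3 * T ∨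
    (A.filter (fun x : ℤ => s - (W : ℤ) ≤ x ∧ x ≤ s - (j : ℤ))).card < 3 * T) with hS
  set E1 := A.filter (fun s : ℤ => T ≤ (Me.filter (fun x : ℤ => |x - s| ≤ (W : ℤ))).card) with hE1
  set E2 := A.filter (fun s : ℤ => T ≤ (Lo.filter (fun x : ℤ => |x - s| ≤ (W : ℤ))).card) with hE2
  have hsub : A.filter (fun s => ¬ GoodAt a b n j w ρ s) ⊆ Me ∪ (Lo ∪ (Ed ∪ (S ∪ (E1 ∪ E2)))) := by
    intro s hs
    rw [Finset.mem_filter] at hs
    obtain ⟨hsA, hbad⟩ := hs
    by_contra hc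
    simp only [Finset.mem_union, not_or] at hc
    obtain ⟨c1, c2, c3, c4, c5, c6⟩ := hc
    apply hbad
    rw [hS, Finset.mem_filter] at c4
    rw [hE1, Finset.mem_filter] at c5
    rw [hE2, Finset.mem_filter] at c6
    have c4' : ¬ ((A.filter (fun x : ℤ => s + (j : ℤ) ≤ x ∧ x ≤ s + (W : ℤ))).card < 3 * T ∨
      (A.filter (fun x : ℤ => s - (W : ℤ) ≤ x ∧ x ≤ s - (j : ℤ))).card < 3 * T) :=
      fun h => c4 ⟨hsA, h⟩
    have c5' : (Me.filter (fun x => |x - s| ≤ W)).card < T :=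
      not_le.1 fun h => c5 ⟨hsA, h⟩
    have c6' : (Lo.filter (fun x => |x - s| ≤ W)).card < T :=
      not_le.1 fun h => c6 ⟨hsA, h⟩
    rw [not_or, not_lt, not_lt] at c4'
    refine DET n B j w ρ κ W u (2 * u + 2) m a b s hρ le_rfl hsA c1 c2 c3 ?_ ?_
    · refine h90_one_count (T := T) (by omega) ?_ c4'.1 c5' c6' ?_
      · intro x hx
        rw [Finset.mem_filter] at hx
        rw [abs_le]
        omega
      · intro x hx h1 h2
        rw [Finset.mem_filter] at hx ⊢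
        exact ⟨hx.1, hx.2.1, hx.2.2, h1, h2⟩
    · refine h90_one_count (T := T) (by omega) ?_ c4'.2 c5' c6' ?_
      · intro x hx
        rw [Finset.mem_filter] at hx
        rw [abs_le]
        omega
      · intro x hx h1 h2
        rw [Finset.mem_filter] at hx ⊢
        exact ⟨hx.1, hx.2.1, hx.2.2, h1, h2⟩
  have hcard : (A.filter (fun s => ¬ GoodAt a b n j w ρ s)).card ≤
      Me.card + (Lo.card + (Ed.card + (S.card + (E1.card + E2.card)))) := by
    refine (Finset.card_le_card hsub).trans ?_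
    refine (Finset.card_union_le _ _).trans (Nat.add_le_add_left ?_ _)
    refine (Finset.card_union_le _ _).trans (Nat.add_le_add_left ?_ _)
    refine (Finset.card_union_le _ _).trans (Nat.add_le_add_left ?_ _)
    refine (Finset.card_union_le _ _).trans (Nat.add_le_add_left ?_ _)
    exact Finset.card_union_le _ _
  have hWT : 2 * W + 1 ≤ T * (2 * L + 1) := by
    have e1 : T * (2 * L + 1) = 2 * (L * T) + T := by ring
    rw [e1]
    omega
  have b1 : E1.card ≤ (2 * L + 1) * Me.card := by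
    have h := MLT Me E1 W T (fun s hs => (Finset.mem_filter.1 hs).2)
    have h2 : (2 * W + 1) * Me.card ≤ T * ((2 * L + 1) * Me.card) := by
      refine (Nat.mul_le_mul_right _ hWT).trans (le_of_eq ?_)
      ring
    exact Nat.le_of_mul_le_mul_left (h.trans h2) hT1
  have b2 : E2.card ≤ (2 * L + 1) * Lo.card := by
    have h := MLT Lo E2 W T (fun s hs => (Finset.mem_filter.1 hs).2)
    have h2 : (2 * W + 1) * Lo.card ≤ T * ((2 * L + 1) * Lo.card) := by
      refine (Nat.mul_le_mul_right _ hWT).trans (le_of_eq ?_)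
      ring
    exact Nat.le_of_mul_le_mul_left (h.trans h2) hT1
  have b3 := LON A n κ u hu1 hAb
  have b4 := SPA A n j (3 * T) W hW1 hAb
  have b5 := EDG n B ρ κ W m a b
  rw [← hLo] at b3
  rw [← hS] at b4
  rw [← hEd] at b5
  have hn1 : (0 : ℝ) < (n : ℝ) + 1 := by positivity
  have hu0' : (0 : ℝ) < u := by exact_mod_cast hu1
  have hW0' : (0 : ℝ) < W := by exact_mod_cast hW1
  have hT0' : (0 : ℝ) < T := by exact_mod_cast hT1
  have hLp : (0 : ℝ) < L := by exact_mod_cast hL1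
  -- the lonely points
  have r3 : (Lo.card : ℝ) ≤ 2 * κ * (((n : ℝ) + 1) / u + 1) := by
    have h : (Lo.card : ℝ) ≤ ((2 * κ * ((n + 1) / u + 1) : ℕ) : ℝ) := by exact_mod_cast b3
    refine h.trans ?_
    push_cast
    have h2 : (((n + 1) / u : ℕ) : ℝ) ≤ ((n : ℝ) + 1) / u := by
      have := @Nat.cast_div_le ℝ _ _ _ (n + 1) u
      push_cast at this
      exact this
    have h3 : (0 : ℝ) ≤ 2 * κ := by positivity
    exact mul_le_mul_of_nonneg_left (by linarith) h3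
  have r3' : (2 * (L : ℝ) + 2) * Lo.card ≤ ε / 8 * (n + 1) + (2 * (L : ℝ) + 2) * (2 * κ) := by
    have h1 : (2 * (L : ℝ) + 2) * Lo.card ≤ (2 * (L : ℝ) + 2) * (2 * κ * (((n : ℝ) + 1) / u + 1)) :=
      mul_le_mul_of_nonneg_left r3 (by positivity)
    have h2 : (2 * (L : ℝ) + 2) * (2 * κ) * (((n : ℝ) + 1) / u) ≤ ε / 8 * (n + 1) := by
      rw [mul_div_assoc', div_le_iff₀ hu0']
      have h3 : (2 * (L : ℝ) + 2) * (2 * κ) ≤ ε / 8 * u := by
        have h4 : ε / 8 * ((2 * (L : ℝ) + 3) * (2 * κ) * (8 / ε)) ≤ ε / 8 * u :=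
          mul_le_mul_of_nonneg_left hu (by positivity)
        have h5 : ε / 8 * ((2 * (L : ℝ) + 3) * (2 * κ) * (8 / ε))
            = (2 * (L : ℝ) + 3) * (2 * κ) := h90_one_a ε _ _ hε
        rw [h5] at h4
        have h6 : (0 : ℝ) ≤ 2 * κ := by positivity
        have h7 := mul_le_mul_of_nonneg_right
          (by linarith : (2 * (L : ℝ) + 2) ≤ 2 * (L : ℝ) + 3) h6
        exact h7.trans h4
      have h8 := mul_le_mul_of_nonneg_right h3 hn1.le
      linarith
    have e : (2 * (L : ℝ) + 2) * (2 * κ * (((n : ℝ) + 1) / u + 1))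
        = (2 * (L : ℝ) + 2) * (2 * κ) * (((n : ℝ) + 1) / u) + (2 * (L : ℝ) + 2) * (2 * κ) := by ring
    rw [e] at h1
    linarith
  -- the edge points
  have r5 : (Ed.card : ℝ) ≤ ε / 8 * (n + 1) := by
    have h : (κ : ℝ) * (Ed.card : ℝ) ≤ 2 * (2 * W + 3) * (B * (n + 1)) := by exact_mod_cast b5
    have h2 : 2 * (2 * (W : ℝ) + 3) * B ≤ ε / 8 * κ := by
      have h4 : ε / 8 * (2 * (2 * (W : ℝ) + 3) * B * (8 / ε)) ≤ ε / 8 * κ :=
        mul_le_mul_of_nonneg_left hκ (by positivity)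
      have h5 : ε / 8 * (2 * (2 * (W : ℝ) + 3) * B * (8 / ε)) = 2 * (2 * (W : ℝ) + 3) * B :=
        h90_one_a ε _ _ hε
      rwa [h5] at h4
    have h3 : (κ : ℝ) * (Ed.card : ℝ) ≤ κ * (ε / 8 * (n + 1)) := by
      refine h.trans ?_
      have := mul_le_mul_of_nonneg_right h2 hn1.le
      linarith
    exact le_of_mul_le_mul_left h3 (by linarith)
  -- the sparse points
  have r4 : (S.card : ℝ) ≤ ε / 8 * (n + 1) + 8 * T := by
    have h : (S.card : ℝ) ≤ ((2 * (3 * T + j) * ((n + 1) / W + 1) : ℕ) : ℝ) := by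
      exact_mod_cast b4
    have h2 : (((n + 1) / W : ℕ) : ℝ) ≤ ((n : ℝ) + 1) / W := by
      have := @Nat.cast_div_le ℝ _ _ _ (n + 1) W
      push_cast at this
      exact this
    have h3 : ((2 * (3 * T + j) * ((n + 1) / W + 1) : ℕ) : ℝ) ≤ 8 * T * (((n : ℝ) + 1) / W + 1) := by
      push_cast
      have hjT : (j : ℝ) ≤ T := by
        have : j ≤ T := by omega
        exact_mod_cast this
      have h4 : (2 : ℝ) * (3 * T + j) ≤ 8 * T := by linarith
      have h5 : (0 : ℝ) ≤ (((n + 1) / W : ℕ) : ℝ) + 1 := by positivity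
      calc (2 : ℝ) * (3 * T + j) * ((((n + 1) / W : ℕ) : ℝ) + 1)
          ≤ 8 * T * ((((n + 1) / W : ℕ) : ℝ) + 1) := mul_le_mul_of_nonneg_right h4 h5
        _ ≤ 8 * T * (((n : ℝ) + 1) / W + 1) :=
          mul_le_mul_of_nonneg_left (by linarith) (by positivity)
    have h6 : 8 * (T : ℝ) * (((n : ℝ) + 1) / W) ≤ ε / 8 * (n + 1) := by
      have h7 : (W : ℝ) = L * T := by
        rw [hWdef]
        push_cast
        ring
      rw [h7]
      have h8 : 8 * (T : ℝ) * (((n : ℝ) + 1) / (L * T)) = 8 / L * (n + 1) :=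
        h90_one_b _ _ _ hT0' hLp
      rw [h8]
      refine mul_le_mul_of_nonneg_right ?_ hn1.le
      rw [div_le_iff₀ hLp]
      have h9 : ε / 8 * (64 / ε) ≤ ε / 8 * L := mul_le_mul_of_nonneg_left hL (by positivity)
      have h10 : ε / 8 * (64 / ε) = 8 := h90_one_d ε hε
      linarith
    linarith
  -- the constant
  have rc : Cc ≤ 5 * ε / 8 * (n + 1) := by
    have h1 : Cc * (8 / (5 * ε)) ≤ (n : ℝ) + 1 := by
      have : (n₀ : ℝ) ≤ n := by exact_mod_cast hn
      linarith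
    have h2 : 5 * ε / 8 * (Cc * (8 / (5 * ε))) = Cc := h90_one_c ε Cc hε
    have h3 := mul_le_mul_of_nonneg_left h1 (by positivity : (0 : ℝ) ≤ 5 * ε / 8)
    rw [h2] at h3
    exact h3
  have hcR : ((A.filter (fun s => ¬ GoodAt a b n j w ρ s)).card : ℝ) ≤
      Me.card + (Lo.card + (Ed.card + (S.card + (E1.card + E2.card)))) := by exact_mod_cast hcard
  have b1R : (E1.card : ℝ) ≤ (2 * L + 1) * Me.card := by exact_mod_cast b1
  have b2R : (E2.card : ℝ) ≤ (2 * L + 1) * Lo.card := by exact_mod_cast b2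
  have hMe0 : (0 : ℝ) ≤ Me.card := by positivity
  rw [hCc] at rc
  clear_value L T W κ u A Me Lo Ed S E1 E2
  linarith

end Pool.Agent.Helper37.SN
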